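import Pool.Agent.Lib.MP_c7af3c_ag.GEN.Base

/-!
# MP_c7af3c_ag, Theorem Y: sections of an arbitrary ambient variety, pulled back under forms
Definitions and statements of LINY and GLOBY.
-/

set_option autoImplicit false

namespace Pool.Agent.Gen.Y

open MvPolynomial WithZero Pool.Agent.Gen

/-! ### 1. Linear algebra -/

/-- The data of the linear algebra step: a point `x` in `N + 1` coordinates, an auxiliary point
`y` in `M + 1` coordinates, functionals `ell m` and vectors `V m G`. -/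
structure SysY (L : Type) [Field L] (N M c : ℕ) (d : Fin c → ℕ) where
  x : Fin (N + 1) → L
  x_ne : x ≠ 0
  y : Fin (M + 1) → L
  y_ne : y ≠ 0
  ell : Fin c → (Fin (N + 1) → L) →ₗ[L] L
  ell_x : ∀ m, ell m x = 0
  V : Fin c → MvPolynomial (Fin (M + 1)) L →ₗ[L] (Fin (N + 1) → L)
  rel : ∀ (m m' : Fin c) (G : MvPolynomial (Fin (M + 1)) L), G.IsHomogeneous (d m) →
    ell m' (V m G) = if m = m' then - eval y G else 0

section

variable {L : Type} [Field L] {N M c : ℕ} {d : Fin c → ℕ}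

/-- the space spanned by `x` and the vectors `V m G` -/
def SysY.T (S : SysY L N M c d) : Submodule L (Fin (N + 1) → L) :=
  Submodule.span L (insert S.x {u | ∃ m G, G.IsHomogeneous (d m) ∧ u = S.V m G})

/-- the column `Z m i j I` -/
noncomputable def SysY.Z (S : SysY L N M c d) (q : Fin c × Fin (M + 1) × Fin (M + 1) ×
    (Fin (M + 1) →₀ ℕ)) : Fin (N + 1) → L :=
  S.y q.2.2.1 • S.V q.1 (X q.2.1 * monomial q.2.2.2 1) -
    S.y q.2.1 • S.V q.1 (X q.2.2.1 * monomial q.2.2.2 1)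

/-- the columns of the `i`-th determinant: `x`, `z` columns `Z`, the `c` columns `U` -/
noncomputable def SysY.col (S : SysY L N M c d) {z : ℕ}
    (q : Fin z → Fin c × Fin (M + 1) × Fin (M + 1) × (Fin (M + 1) →₀ ℕ)) (i : Fin (M + 1)) :
    (Unit ⊕ Fin z) ⊕ Fin c → (Fin (N + 1) → L) :=
  Sum.elim (Sum.elim (fun _ => S.x) (fun a => S.Z (q a))) (fun m => S.V m (X i ^ d m))

end

/-- Module LINY. -/
def LinYStatement : Prop := ∀ (L : Type) [Field L] (N M c n : ℕ) (d : Fin c → ℕ)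
  (S : SysY L N M c d), Module.finrank L S.T ≤ n + 1 →
  ∃ (z : ℕ) (q : Fin z → Fin c × Fin (M + 1) × Fin (M + 1) × (Fin (M + 1) →₀ ℕ))
    (R : (Unit ⊕ Fin z) ⊕ Fin c → Fin (N + 1)) (μ : L),
    z + c ≤ n ∧ (∀ a, (q a).2.2.2.degree + 1 = d (q a).1) ∧ μ ≠ 0 ∧
    ∀ i, Matrix.det (Matrix.of fun a k => S.col q i k (R a)) = μ * S.y i ^ (∑ m, d m)

/-! ### 2. Derivations -/

/-- `V_m(G)_p = sum_I G_I del_{m,I}(x_p)`, for a point with `N + 1` coordinates -/
noncomputable def VY {L : Type} [Field L] {N M c : ℕ} {d : Fin c → ℕ} (D : DSys L M c d)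
    (x : Fin (N + 1) → L) (m : Fin c) :
    MvPolynomial (Fin (M + 1)) L →ₗ[L] (Fin (N + 1) → L) :=
  (basisMonomials (Fin (M + 1)) L).constr L fun I p => D.del m I (x p)

/-- the space spanned by `x` and the vectors `V m G` -/
def TY {L : Type} [Field L] {N M c : ℕ} {d : Fin c → ℕ} (D : DSys L M c d)
    (x : Fin (N + 1) → L) : Submodule L (Fin (N + 1) → L) :=
  Submodule.span L (insert x {u | ∃ m G, G.IsHomogeneous (d m) ∧ u = VY D x m G})

/-- Module GLOBY: the height bound.  `F_m(φ(x)) = 0`, `φ_j` forms of degree `r` over `k0`. -/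
def GlobYStatement : Prop := ∀ (k0 L : Type) [Field k0] [Field L] [Algebra k0 L]
  (N M c n r : ℕ) (d : Fin c → ℕ) (D : DSys L M c d)
  (φ : Fin (M + 1) → MvPolynomial (Fin (N + 1)) k0) (x : Fin (N + 1) → L),
  (∀ m I (a : k0), D.del m I (algebraMap k0 L a) = 0) →
  (∀ j, (φ j).IsHomogeneous r) → x ≠ 0 →
  (∀ p, ∃ (e : ℕ) (A : Fin (M + 1) → MvPolynomial (Fin (N + 1)) k0),
    (∀ j, (A j).IsHomogeneous e) ∧ x p ^ (e + r) = ∑ j, aeval x (A j) * aeval x (φ j)) →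
  (∀ m, eval (fun j => aeval x (φ j)) (D.F m) = 0) →
  Module.finrank L (TY D x) ≤ n + 1 → n + 2 + r * n ≤ r * c + r * ∑ m, d m →
  ∀ (S : PlaceSys L), S.IsProd → (∀ p (a : k0), S.v p (algebraMap k0 L a) ≤ 1) →
  ∀ B : S.V → ℕ, {p | B p ≠ 0}.Finite →
  (∀ p m I, I.degree = d m → ∀ f, S.v p f ≤ 1 → S.v p (D.del m I f) ≤ exp (B p : ℤ)) →
    S.ht x ≤ n * ∑ᶠ p, (S.w p : ℤ) * B p

end Pool.Agent.Gen.Y
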